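import Mathlib

/-!
Supercharacter theories and the unitriangular groups.
-/

set_option autoImplicit false

namespace Q46.SC

open Matrix

/-- The set of irreducible complex characters of a group. -/
def Irr (G : Type) [Group G] : Set (G → ℂ) :=
  {χ | ∃ V : FDRep ℂ G, CategoryTheory.Simple V ∧ χ = V.character}

/-- A supercharacter theory of a finite group `G` (Diaconis and Isaacs): a partition `X` of the set
of irreducible characters and a partition `K` of `G` with equally many blocks, such that `{1}` is a
block of `K` and for every block `B` of `X` the character `∑ ψ ∈ B, ψ 1 • ψ` is constant on every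
block of `K`. -/
structure SupercharacterTheory (G : Type) [Group G] where
  X : Set (Set (G → ℂ))
  K : Set (Set G)
  nonempty_X : ∀ B ∈ X, B.Nonempty
  disjoint_X : ∀ B ∈ X, ∀ B' ∈ X, B ≠ B' → Disjoint B B'
  union_X : ⋃₀ X = Irr G
  nonempty_K : ∀ C ∈ K, C.Nonempty
  disjoint_K : ∀ C ∈ K, ∀ C' ∈ K, C ≠ C' → Disjoint C C'
  union_K : ⋃₀ K = Set.univ
  card_eq : X.ncard = K.ncard
  one_mem : {1} ∈ K
  const : ∀ B ∈ X, ∀ C ∈ K, ∀ g ∈ C, ∀ h ∈ C,
    ∑ᶠ ψ ∈ B, ψ 1 * ψ g = ∑ᶠ ψ ∈ B, ψ 1 * ψ h

variable (n : ℕ) (F : Type) [Field F]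

/-- The group `U_n(F)` of upper unitriangular matrices. -/
def unitri : Subgroup (GL (Fin n) F) where
  carrier := {g | (∀ i, (g : Matrix (Fin n) (Fin n) F) i i = 1) ∧
    ∀ i j, j < i → (g : Matrix (Fin n) (Fin n) F) i j = 0}
  mul_mem' := by
    rintro a b ⟨ha1, ha2⟩ ⟨hb1, hb2⟩
    refine ⟨fun i => ?_, fun i j hij => ?_⟩
    · rw [GeneralLinearGroup.coe_mul, Matrix.mul_apply, Finset.sum_eq_single i]
      · rw [ha1, hb1, one_mul]
      · intro k _ hk
        rcases lt_or_gt_of_ne hk with h | h
        · rw [ha2 i k h, zero_mul]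
        · rw [hb2 k i h, mul_zero]
      · simp
    · rw [GeneralLinearGroup.coe_mul, Matrix.mul_apply]
      refine Finset.sum_eq_zero fun k _ => ?_
      rcases lt_or_ge k i with h | h
      · rw [ha2 i k h, zero_mul]
      · rw [hb2 k j (lt_of_lt_of_le hij h), mul_zero]
  one_mem' := by
    refine ⟨fun i => by simp, fun i j hij => ?_⟩
    rw [GeneralLinearGroup.coe_one, Matrix.one_apply_ne hij.ne']
  inv_mem' := by
    rintro a ⟨ha1, ha2⟩
    have hbt : BlockTriangular (a : Matrix (Fin n) (Fin n) F) id := fun i j hij => ha2 i j hij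
    have hinv : BlockTriangular ((a⁻¹ : GL (Fin n) F) : Matrix (Fin n) (Fin n) F) id := by
      have : Invertible (a : Matrix (Fin n) (Fin n) F) := a.invertible
      rw [coe_units_inv]
      exact blockTriangular_inv_of_blockTriangular hbt
    have hb2 : ∀ i j, j < i → ((a⁻¹ : GL (Fin n) F) : Matrix (Fin n) (Fin n) F) i j = 0 :=
      fun i j hij => hinv hij
    refine ⟨fun i => ?_, hb2⟩
    have h1 : ((a * a⁻¹ : GL (Fin n) F) : Matrix (Fin n) (Fin n) F) i i = 1 := by
      rw [mul_inv_cancel]; simp
    rw [GeneralLinearGroup.coe_mul, Matrix.mul_apply, Finset.sum_eq_single i, ha1, one_mul] at h1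
    · exact h1
    · intro k _ hk
      rcases lt_or_gt_of_ne hk with h | h
      · rw [ha2 i k h, zero_mul]
      · rw [hb2 k i h, mul_zero]
    · simp

/-- The space of strictly upper triangular matrices. -/
def strictUpper : Submodule F (Matrix (Fin n) (Fin n) F) where
  carrier := {x | ∀ i j, j ≤ i → x i j = 0}
  add_mem' := fun {a b} ha hb i j hij => by
    rw [Matrix.add_apply, ha i j hij, hb i j hij, add_zero]
  zero_mem' := fun _ _ _ => rfl
  smul_mem' := fun c x hx i j hij => by
    rw [Matrix.smul_apply, hx i j hij, smul_zero]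

variable {n F}

/-- The matrix of an element of `U_n(F)`. -/
abbrev mat (g : unitri n F) : Matrix (Fin n) (Fin n) F := ((g : GL (Fin n) F) : Matrix (Fin n) (Fin n) F)

theorem mat_diag (g : unitri n F) (i : Fin n) : mat g i i = 1 := g.2.1 i

theorem mat_lower (g : unitri n F) {i j : Fin n} (h : j < i) : mat g i j = 0 := g.2.2 i j h

theorem sub_one_mem (g : unitri n F) : mat g - 1 ∈ strictUpper n F := by
  intro i j hij
  rw [Matrix.sub_apply]
  rcases hij.lt_or_eq with h | h
  · rw [mat_lower g h, Matrix.one_apply_ne h.ne', sub_zero]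
  · subst h
    rw [mat_diag g j, Matrix.one_apply_eq, sub_self]

theorem sand_mem (u v : unitri n F) {y : Matrix (Fin n) (Fin n) F} (hy : y ∈ strictUpper n F) :
    mat u * y * mat v ∈ strictUpper n F := by
  intro i j hij
  rw [Matrix.mul_apply]
  refine Finset.sum_eq_zero fun l _ => ?_
  rcases lt_or_ge j l with h | h
  · rw [mat_lower v h, mul_zero]
  · rw [Matrix.mul_apply, Finset.sum_eq_zero, zero_mul]
    intro k _
    rcases lt_or_ge k i with h' | h'
    · rw [mat_lower u h', zero_mul]
    · rw [hy k l (h.trans (hij.trans h')), mul_zero]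

/-- The linear map `y ↦ u y v` on strictly upper triangular matrices. -/
def sand (u v : unitri n F) : strictUpper n F →ₗ[F] strictUpper n F where
  toFun y := ⟨mat u * y.1 * mat v, sand_mem u v y.2⟩
  map_add' y z := by
    apply Subtype.ext
    show mat u * (y.1 + z.1) * mat v = mat u * y.1 * mat v + mat u * z.1 * mat v
    rw [Matrix.mul_add, Matrix.add_mul]
  map_smul' c y := by
    apply Subtype.ext
    show mat u * (c • y.1) * mat v = c • (mat u * y.1 * mat v)
    rw [Matrix.mul_smul, Matrix.smul_mul]

/-- The superclass of `g` in the theory of André: all `h` such that `h - 1` lies in the two-sided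
orbit of `g - 1`. -/
def superclass (g : unitri n F) : Set (unitri n F) :=
  {h | ∃ u v : unitri n F, mat h - 1 = mat u * (mat g - 1) * mat v}

/-- The two-sided orbit of a functional on the strictly upper triangular matrices. -/
def dualOrbit (lam : Module.Dual F (strictUpper n F)) : Set (Module.Dual F (strictUpper n F)) :=
  {μ | ∃ u v : unitri n F, μ = lam ∘ₗ sand u v}

/-- The orbit sum `g ↦ ∑ μ ∈ U λ U, θ (μ (g - 1))`; a positive multiple of it is the
supercharacter of André indexed by the orbit of `lam`. -/
noncomputable def orbitSum (θ : AddChar F ℂ) (lam : Module.Dual F (strictUpper n F))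
    (g : unitri n F) : ℂ :=
  ∑ᶠ μ ∈ dualOrbit lam, θ (μ ⟨mat g - 1, sub_one_mem g⟩)

/-- The single-box functional `y ↦ a y_{ij}`. -/
def box (i j : Fin n) (a : F) : Module.Dual F (strictUpper n F) where
  toFun y := a * y.1 i j
  map_add' y z := by
    show a * (y.1 i j + z.1 i j) = _
    rw [mul_add]
  map_smul' c y := by
    show a * (c * y.1 i j) = c * (a * y.1 i j)
    ring

/-- A theory contains all single-box supercharacters as irreducible characters: for every box
`i < j` and label `a ≠ 0` the character which is a positive multiple of the orbit sum of the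
single-box functional forms a block of its own. -/
def ContainsSingleBoxes (θ : AddChar F ℂ) (T : SupercharacterTheory (unitri n F)) : Prop :=
  ∀ i j : Fin n, i < j → ∀ a : F, a ≠ 0 →
    ∃ c : ℝ, 0 < c ∧ {fun g => (c : ℂ) * orbitSum θ (box i j a) g} ∈ T.X

end Q46.SC
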