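import Pool.Agent.Q46.SC.Sums

set_option autoImplicit false
set_option linter.unusedSectionVars false

namespace Q46.SC

open Matrix Finset

variable {n : ℕ} {F : Type} [Field F]

theorem sand_comp (u v a b : unitri n F) : sand u v ∘ₗ sand a b = sand (u * a) (b * v) := by
  ext1 y
  apply Subtype.ext
  show mat u * (mat a * y.1 * mat b) * mat v = mat (u * a) * y.1 * mat (b * v)
  simp only [mat_mul, Matrix.mul_assoc]

theorem sand_one : sand (1 : unitri n F) 1 = LinearMap.id := by
  ext1 y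
  apply Subtype.ext
  show mat 1 * y.1 * mat 1 = y.1
  rw [mat_one, Matrix.one_mul, Matrix.mul_one]

variable [Fintype (unitri n F)]

theorem orbit_sum_eq (θ : AddChar F ℂ) (lam : Module.Dual F (strictUpper n F)) :
    ∃ N : ℕ, 0 < N ∧ ∀ g : unitri n F,
      ∑ u : unitri n F, ∑ v : unitri n F, θ (lam (sand u v ⟨mat g - 1, sub_one_mem g⟩)) =
        N * orbitSum θ lam g := by
  classical
  let Φ : unitri n F × unitri n F → Module.Dual F (strictUpper n F) := fun p => lam ∘ₗ sand p.1 p.2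
  have hΦ : ∀ p a b, Φ (p.1 * a, b * p.2) = Φ p ∘ₗ sand a b := by
    intro p a b
    show lam ∘ₗ sand (p.1 * a) (b * p.2) = (lam ∘ₗ sand p.1 p.2) ∘ₗ sand a b
    rw [LinearMap.comp_assoc, sand_comp]
  have h1 : Φ (1, 1) = lam := by
    show lam ∘ₗ sand 1 1 = lam
    rw [sand_one, LinearMap.comp_id]
  set N := (univ.filter fun p => Φ p = lam).card with hN
  have hcard : ∀ p0, (univ.filter fun p => Φ p = Φ p0).card = N := by
    intro p0
    refine Finset.card_bij' (fun p _ => (p.1 * p0.1⁻¹, p0.2⁻¹ * p.2))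
      (fun p _ => (p.1 * p0.1, p0.2 * p.2)) ?_ ?_ ?_ ?_
    · intro p hp
      simp only [mem_filter, mem_univ, true_and] at hp ⊢
      rw [hΦ p, hp, ← hΦ p0, mul_inv_cancel, inv_mul_cancel, h1]
    · intro p hp
      simp only [mem_filter, mem_univ, true_and] at hp ⊢
      rw [hΦ p, hp]
    · intro p _
      simp
    · intro p _
      simp
  refine ⟨N, Finset.card_pos.2 ⟨(1, 1), by simp [h1]⟩, fun g => ?_⟩
  set y : strictUpper n F := ⟨mat g - 1, sub_one_mem g⟩ with hy
  have h2 : ∑ u : unitri n F, ∑ v : unitri n F, θ (lam (sand u v y)) =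
      ∑ p : unitri n F × unitri n F, θ (Φ p y) := by
    rw [Fintype.sum_prod_type]
    rfl
  rw [h2, Finset.sum_comp (fun μ : Module.Dual F (strictUpper n F) => θ (μ y)) Φ]
  have h3 : dualOrbit lam = ((univ.image Φ : Finset _) : Set _) := by
    ext μ
    simp only [dualOrbit, Set.mem_ofPred_eq, coe_image, coe_univ, Set.image_univ, Set.mem_range,
      Prod.exists]
    constructor
    · rintro ⟨u, v, h⟩
      exact ⟨u, v, h.symm⟩
    · rintro ⟨u, v, h⟩
      exact ⟨u, v, h.symm⟩
  unfold orbitSum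
  rw [h3, finsum_mem_coe_finset, Finset.mul_sum]
  refine Finset.sum_congr rfl fun μ hμ => ?_
  obtain ⟨p0, -, rfl⟩ := Finset.mem_image.1 hμ
  rw [hcard p0, nsmul_eq_mul]

theorem orbitSum_one (θ : AddChar F ℂ) (lam : Module.Dual F (strictUpper n F)) :
    orbitSum θ lam 1 ≠ 0 := by
  obtain ⟨N, hN, h⟩ := orbit_sum_eq θ lam
  intro h0
  have h1 := h 1
  rw [h0, mul_zero] at h1
  have h2 : (⟨mat (1 : unitri n F) - 1, sub_one_mem 1⟩ : strictUpper n F) = 0 := by
    apply Subtype.ext
    show mat (1 : unitri n F) - 1 = 0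
    rw [mat_one, sub_self]
  rw [h2] at h1
  simp only [map_zero, AddChar.map_zero_eq_one, sum_const, card_univ, nsmul_eq_mul, mul_one] at h1
  have h3 : (Fintype.card (unitri n F) : ℂ) ≠ 0 := by
    have : 0 < Fintype.card (unitri n F) := Fintype.card_pos_iff.2 ⟨1⟩
    exact_mod_cast this.ne'
  exact (mul_ne_zero h3 h3) h1

/-- equal single-box orbit sums imply the same superclass -/
theorem same_class [Finite F] (θ : AddChar F ℂ) (hθ : θ ≠ 1) (g h : unitri n F)
    (hgh : ∀ i j : Fin n, i < j → ∀ a : F, a ≠ 0 →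
      orbitSum θ (box i j a) g = orbitSum θ (box i j a) h) : h ∈ superclass g := by
  have hGG : ∀ i j : Fin n, i < j → ∀ a : F, a ≠ 0 →
      GG θ i j a (mat g - 1) = GG θ i j a (mat h - 1) := by
    intro i j hij a ha
    obtain ⟨N, hN, h1⟩ := orbit_sum_eq θ (box i j a : Module.Dual F (strictUpper n F))
    have h2 : GG θ i j a (mat g - 1) = N * orbitSum θ (box i j a) g := h1 g
    have h3 : GG θ i j a (mat h - 1) = N * orbitSum θ (box i j a) h := h1 h
    rw [h2, h3, hgh i j hij a ha]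
  obtain ⟨u, v, hb⟩ := normal (mat g - 1)
  obtain ⟨u', v', hb'⟩ := normal (mat h - 1)
  set b := mat u * (mat g - 1) * mat v with hbdef
  set b' := mat u' * (mat h - 1) * mat v' with hb'def
  have e1 : ∀ i j : Fin n, i < j → ∀ a : F, a ≠ 0 → GG θ i j a b = GG θ i j a b' := by
    intro i j hij a ha
    rw [hbdef, hb'def, GG_orbit, GG_orbit, hGG i j hij a ha]
  have hbu : b ∈ strictUpper n F := sand_mem u v (sub_one_mem g)
  have hbu' : b' ∈ strictUpper n F := sand_mem u' v' (sub_one_mem h)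
  have hbb : b = b' := by
    ext i j
    by_cases hij : i < j
    · by_cases h0 : b i j = 0
      · by_contra hne
        have h0' : b' i j ≠ 0 := fun h' => hne (by rw [h0, h'])
        have := separate θ hθ b' b hb' hb i j (fun a ha => (e1 i j hij a ha).symm) h0'
        exact hne this
      · exact (separate θ hθ b b' hb hb' i j (fun a ha => e1 i j hij a ha) h0).symm
    · rw [hbu i j (not_lt.1 hij), hbu' i j (not_lt.1 hij)]
  refine ⟨u'⁻¹ * u, v * v'⁻¹, ?_⟩
  have e2 : mat (u'⁻¹ * u) * (mat g - 1) * mat (v * v'⁻¹) = mat u'⁻¹ * b * mat v'⁻¹ := by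
    rw [hbdef, mat_mul, mat_mul]
    simp only [Matrix.mul_assoc]
  rw [e2, hbb, hb'def]
  have e3 : mat u'⁻¹ * (mat u' * (mat h - 1) * mat v') * mat v'⁻¹ =
      (mat u'⁻¹ * mat u') * (mat h - 1) * (mat v' * mat v'⁻¹) := by
    simp only [Matrix.mul_assoc]
  rw [e3, mat_inv_mul, mat_mul_inv, Matrix.one_mul, Matrix.mul_one]

end Q46.SC
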