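import Pool.Agent.Q46.SC.Defs

set_option autoImplicit false

namespace Q46.SC

open Matrix

variable {n : ℕ} {F : Type} [Field F]

/-- element of the group from a unitriangular matrix -/
noncomputable def ofMat (M : Matrix (Fin n) (Fin n) F) (h1 : ∀ i, M i i = 1) (h2 : ∀ i j, j < i → M i j = 0) :
    unitri n F :=
  ⟨GeneralLinearGroup.mkOfDetNeZero M (by
    have : M.det = ∏ i, M i i := det_of_isUpperTriangular (fun i j hij => h2 i j hij)
    rw [this]
    simp [h1]), h1, h2⟩

theorem mat_ofMat (M : Matrix (Fin n) (Fin n) F) (h1 : ∀ i, M i i = 1) (h2 : ∀ i j, j < i → M i j = 0) :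
    mat (ofMat M h1 h2) = M := rfl

theorem mat_mul (u v : unitri n F) : mat (u * v) = mat u * mat v := rfl

theorem mat_one : mat (1 : unitri n F) = 1 := rfl

theorem mat_mul_inv (u : unitri n F) : mat u * mat u⁻¹ = 1 := by
  rw [← mat_mul, mul_inv_cancel, mat_one]

theorem mat_inv_mul (u : unitri n F) : mat u⁻¹ * mat u = 1 := by
  rw [← mat_mul, inv_mul_cancel, mat_one]

/-- clean entry -/
def Clean (z : Matrix (Fin n) (Fin n) F) (i j : Fin n) : Prop :=
  (∀ l, l ≠ j → z i l = 0) ∧ (∀ k, k ≠ i → z k j = 0)

/-- column operation matrix -/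
def colM (z : Matrix (Fin n) (Fin n) F) (i0 j0 : Fin n) : Matrix (Fin n) (Fin n) F :=
  fun a b => if a = b then 1 else if a = j0 ∧ j0 < b then - (z i0 b / z i0 j0) else 0

/-- row operation matrix -/
def rowM (z : Matrix (Fin n) (Fin n) F) (i0 j0 : Fin n) : Matrix (Fin n) (Fin n) F :=
  fun a b => if a = b then 1 else if b = i0 ∧ a < i0 then - (z a j0 / z i0 j0) else 0

theorem mul_colM (z : Matrix (Fin n) (Fin n) F) (i0 j0 a b : Fin n) :
    (z * colM z i0 j0) a b = z a b + if j0 < b then - (z a j0 * (z i0 b / z i0 j0)) else 0 := by
  rw [Matrix.mul_apply]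
  have h : ∀ k, z a k * colM z i0 j0 k b = (if k = b then z a b else 0) +
      (if k = j0 then (if j0 < b then - (z a j0 * (z i0 b / z i0 j0)) else 0) else 0) := by
    intro k
    unfold colM
    by_cases h1 : k = b
    · subst h1
      by_cases h2 : k = j0
      · subst h2; simp
      · simp [h2]
    · by_cases h2 : k = j0
      · subst h2
        by_cases h3 : k < b
        · simp [h1, h3]
        · simp [h1, h3]
      · simp [h1, h2]
  rw [Finset.sum_congr rfl fun k _ => h k, Finset.sum_add_distrib]
  simp

theorem rowM_mul (z x : Matrix (Fin n) (Fin n) F) (i0 j0 a b : Fin n) :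
    (rowM z i0 j0 * x) a b = x a b + if a < i0 then - (z a j0 / z i0 j0) * x i0 b else 0 := by
  rw [Matrix.mul_apply]
  have h : ∀ k, rowM z i0 j0 a k * x k b = (if k = a then x a b else 0) +
      (if k = i0 then (if a < i0 then - (z a j0 / z i0 j0) * x i0 b else 0) else 0) := by
    intro k
    unfold rowM
    by_cases h1 : a = k
    · subst h1
      by_cases h2 : a = i0
      · subst h2; simp
      · simp [h2]
    · by_cases h2 : k = i0
      · subst h2
        by_cases h3 : a < k
        · simp [h1, h3, Ne.symm h1]
        · simp [h1, h3, Ne.symm h1]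
      · simp [h1, h2, Ne.symm h1]
  rw [Finset.sum_congr rfl fun k _ => h k, Finset.sum_add_distrib]
  simp

theorem normal_aux (y : Matrix (Fin n) (Fin n) F) (m : ℕ) : m ≤ n →
    ∃ u v : unitri n F, ∀ i : Fin n, n ≤ i.val + m → ∀ j, (mat u * y * mat v) i j ≠ 0 →
      Clean (mat u * y * mat v) i j := by
  classical
  induction m with
  | zero =>
    intro _
    exact ⟨1, 1, fun i hi => absurd i.2 (by omega)⟩
  | succ m ih =>
    intro hm
    obtain ⟨u, v, huv⟩ := ih (by omega)
    set z := mat u * y * mat v with hz
    obtain ⟨i0, hi0⟩ : ∃ i0 : Fin n, i0.val + m + 1 = n := ⟨⟨n - m - 1, by omega⟩, by simp; omega⟩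
    by_cases hrow : ∀ j, z i0 j = 0
    · refine ⟨u, v, fun i hi j hij => ?_⟩
      by_cases h : n ≤ i.val + m
      · exact huv i h j hij
      · have : i = i0 := Fin.ext (by omega)
        rw [this] at hij
        exact absurd (hrow j) hij
    · push Not at hrow
      -- leftmost nonzero entry
      obtain ⟨j0, hj0, hmin⟩ : ∃ j0, z i0 j0 ≠ 0 ∧ ∀ l, l < j0 → z i0 l = 0 := by
        have hne : (Finset.univ.filter fun j => z i0 j ≠ 0).Nonempty := by
          obtain ⟨j, hj⟩ := hrow
          exact ⟨j, by simp [hj]⟩
        refine ⟨(Finset.univ.filter fun j => z i0 j ≠ 0).min' hne, ?_, fun l hl => ?_⟩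
        · have := Finset.min'_mem _ hne
          simpa using this
        · by_contra h
          have := Finset.min'_le (Finset.univ.filter fun j => z i0 j ≠ 0) l (by simp [h])
          exact absurd hl (not_lt.2 this)
      let U := ofMat (rowM z i0 j0) (fun i => by simp [rowM]) (fun i j hij => by
        unfold rowM
        rw [if_neg hij.ne']
        rw [if_neg]
        rintro ⟨rfl, h⟩
        exact absurd h (not_lt.2 hij.le))
      let V := ofMat (colM z i0 j0) (fun i => by simp [colM]) (fun i j hij => by
        unfold colM
        rw [if_neg hij.ne']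
        rw [if_neg]
        rintro ⟨rfl, h⟩
        exact absurd h (not_lt.2 hij.le))
      refine ⟨U * u, v * V, ?_⟩
      have hprod : mat (U * u) * y * mat (v * V) = rowM z i0 j0 * (z * colM z i0 j0) := by
        rw [mat_mul, mat_mul]
        show rowM z i0 j0 * mat u * y * (mat v * colM z i0 j0) =
          rowM z i0 j0 * ((mat u * y * mat v) * colM z i0 j0)
        simp only [Matrix.mul_assoc]
      rw [hprod]
      set w := rowM z i0 j0 * (z * colM z i0 j0) with hw
      -- entries of the row i0 after the column operations
      have hi0row : ∀ b, b ≠ j0 → (z * colM z i0 j0) i0 b = 0 := by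
        intro b hb
        rw [mul_colM]
        rcases lt_or_gt_of_ne hb with h | h
        · rw [hmin b h, if_neg (not_lt.2 h.le), add_zero]
        · rw [if_pos h]; field_simp; ring
      have hi0piv : (z * colM z i0 j0) i0 j0 = z i0 j0 := by
        rw [mul_colM, if_neg (lt_irrefl _), add_zero]
      have hwne : ∀ a b, b ≠ j0 → w a b = z a b + if j0 < b then - (z a j0 * (z i0 b / z i0 j0)) else 0 := by
        intro a b hb
        rw [hw, rowM_mul, hi0row b hb, mul_zero, mul_colM]
        simp
      have hwj : ∀ a, w a j0 = if a < i0 then 0 else z a j0 := by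
        intro a
        rw [hw, rowM_mul, hi0piv, mul_colM, if_neg (lt_irrefl _), add_zero]
        split_ifs with h
        · field_simp; ring
        · ring
      -- lower rows have a zero in column j0
      have hlow : ∀ k, i0 < k → z k j0 = 0 := by
        intro k hk
        by_contra h
        have := huv k (by have : i0.val < k.val := hk; omega) j0 h
        exact hj0 (this.2 i0 hk.ne)
      intro i hi j hij
      by_cases hii : i = i0
      · subst hii
        have hj : j = j0 := by
          by_contra hj
          apply hij
          rw [hwne _ _ hj]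
          rcases lt_or_gt_of_ne hj with h | h
          · rw [hmin j h, if_neg (not_lt.2 h.le), add_zero]
          · rw [if_pos h]; field_simp; ring
        subst hj
        refine ⟨fun l hl => ?_, fun k hk => ?_⟩
        · rw [hwne _ _ hl]
          rcases lt_or_gt_of_ne hl with h | h
          · rw [hmin l h, if_neg (not_lt.2 h.le), add_zero]
          · rw [if_pos h]; field_simp; ring
        · rw [hwj]
          rcases lt_or_gt_of_ne hk with h | h
          · rw [if_pos h]
          · rw [if_neg (not_lt.2 h.le), hlow k h]
      · have hgt : i0 < i := by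
          rcases lt_or_gt_of_ne hii with h | h
          · have : i.val < i0.val := h
            omega
          · exact h
        have hi' : n ≤ i.val + m := by have : i0.val < i.val := hgt; omega
        have hrowi : ∀ b, w i b = z i b := by
          intro b
          by_cases hb : b = j0
          · subst hb
            rw [hwj, if_neg (not_lt.2 hgt.le)]
          · rw [hwne _ _ hb, hlow i hgt]; simp
        rw [hrowi] at hij
        obtain ⟨c1, c2⟩ := huv i hi' j hij
        have hjj : j ≠ j0 := fun h => by
          subst h
          exact hij (hlow i hgt)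
        refine ⟨fun l hl => by rw [hrowi, c1 l hl], fun k hk => ?_⟩
        rw [hwne _ _ hjj, c2 k hk, c2 i0 (fun h => hii h.symm)]
        simp

/-- normal form -/
theorem normal (y : Matrix (Fin n) (Fin n) F) :
    ∃ u v : unitri n F, ∀ i j, (mat u * y * mat v) i j ≠ 0 → Clean (mat u * y * mat v) i j := by
  obtain ⟨u, v, h⟩ := normal_aux y n le_rfl
  exact ⟨u, v, fun i j hij => h i (by omega) j hij⟩

end Q46.SC
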