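import Pool.Agent.Q46.SC.Normal

set_option autoImplicit false
set_option linter.unusedSectionVars false

namespace Q46.SC

open Matrix Finset

variable {n : ℕ} {F : Type} [Field F]

section sums

variable [Fintype (unitri n F)]

/-- the sum over all pairs -/
noncomputable def GG (θ : AddChar F ℂ) (i j : Fin n) (a : F) (y : Matrix (Fin n) (Fin n) F) : ℂ :=
  ∑ u : unitri n F, ∑ v : unitri n F, θ (a * (mat u * y * mat v) i j)

theorem GG_orbit (θ : AddChar F ℂ) (i j : Fin n) (a : F) (y : Matrix (Fin n) (Fin n) F)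
    (u0 v0 : unitri n F) : GG θ i j a (mat u0 * y * mat v0) = GG θ i j a y := by
  unfold GG
  rw [← Fintype.sum_equiv (Equiv.mulRight u0) (fun u => ∑ v : unitri n F,
    θ (a * (mat (u * u0) * y * mat v) i j)) (fun u => ∑ v : unitri n F,
    θ (a * (mat u * y * mat v) i j)) (fun u => rfl)]
  refine Finset.sum_congr rfl fun u _ => ?_
  rw [← Fintype.sum_equiv (Equiv.mulLeft v0) (fun v => θ (a * (mat (u * u0) * y * mat (v0 * v)) i j))
    (fun v => θ (a * (mat (u * u0) * y * mat v) i j)) (fun v => rfl)]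
  refine Finset.sum_congr rfl fun v _ => ?_
  simp only [mat_mul, Matrix.mul_assoc]

/-- elementary unitriangular matrix -/
noncomputable def el (k l : Fin n) (h : k < l) (t : F) : unitri n F :=
  ofMat (1 + Matrix.single k l t) (fun i => by
    rw [Matrix.add_apply, Matrix.one_apply_eq, Matrix.single_apply, if_neg, add_zero]
    rintro ⟨rfl, h'⟩
    exact absurd h' h.ne') (fun i j hij => by
    rw [Matrix.add_apply, Matrix.one_apply_ne hij.ne', Matrix.single_apply, if_neg, add_zero]
    rintro ⟨rfl, rfl⟩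
    exact absurd hij (not_lt.2 h.le))

theorem mat_el (k l : Fin n) (h : k < l) (t : F) : mat (el k l h t) = 1 + Matrix.single k l t := rfl

theorem exists_t (θ : AddChar F ℂ) (hθ : θ ≠ 1) (a s : F) (ha : a ≠ 0) (hs : s ≠ 0) :
    ∃ t : F, θ (a * (t * s)) ≠ 1 := by
  by_contra hcon
  push Not at hcon
  apply hθ
  ext x
  have := hcon (x / (a * s))
  rw [AddChar.one_apply, ← this]
  congr 1
  field_simp

/-- vanishing, row version -/
theorem GG_zero_row (θ : AddChar F ℂ) (hθ : θ ≠ 1) (i j l0 : Fin n) (a : F) (ha : a ≠ 0)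
    (y : Matrix (Fin n) (Fin n) F) (hl : l0 < j) (hy : y i l0 ≠ 0) (hc : ∀ k, k ≠ i → y k l0 = 0) :
    GG θ i j a y = 0 := by
  obtain ⟨t, ht⟩ := exists_t θ hθ a (y i l0) ha hy
  have key : GG θ i j a y = θ (a * (t * y i l0)) * GG θ i j a y := by
    unfold GG
    rw [Finset.mul_sum]
    refine Finset.sum_congr rfl fun u _ => ?_
    refine (Fintype.sum_equiv (Equiv.mulLeft (el l0 j hl t))
      (fun v => θ (a * (mat u * y * mat (el l0 j hl t * v)) i j))
      (fun v => θ (a * (mat u * y * mat v) i j)) (fun v => rfl)).symm.trans ?_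
    rw [Finset.mul_sum]
    refine Finset.sum_congr rfl fun v _ => ?_
    rw [← AddChar.map_add_eq_mul]
    congr 1
    rw [mat_mul, mat_el, Matrix.add_mul, Matrix.one_mul, Matrix.mul_add, Matrix.add_apply, mul_add,
      add_comm]
    congr 2
    have e1 : (mat u * y) i l0 = y i l0 := by
      rw [Matrix.mul_apply, Finset.sum_eq_single i]
      · rw [mat_diag, one_mul]
      · intro k _ hk
        rw [hc k hk, mul_zero]
      · simp
    rw [← Matrix.mul_assoc, Matrix.mul_apply, Finset.sum_eq_single j]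
    · rw [Matrix.mul_single_apply_same, e1, mat_diag, mul_one, mul_comm]
    · intro k _ hk
      rw [Matrix.mul_single_apply_of_ne _ _ _ _ _ hk, zero_mul]
    · simp
  have : (1 - θ (a * (t * y i l0))) * GG θ i j a y = 0 := by
    rw [sub_mul, one_mul, ← key, sub_self]
  rcases mul_eq_zero.1 this with h | h
  · exact absurd (sub_eq_zero.1 h).symm ht
  · exact h

/-- vanishing, column version -/
theorem GG_zero_col (θ : AddChar F ℂ) (hθ : θ ≠ 1) (i j k0 : Fin n) (a : F) (ha : a ≠ 0)
    (y : Matrix (Fin n) (Fin n) F) (hk : i < k0) (hy : y k0 j ≠ 0) (hc : ∀ l, l ≠ j → y k0 l = 0) :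
    GG θ i j a y = 0 := by
  obtain ⟨t, ht⟩ := exists_t θ hθ a (y k0 j) ha hy
  have key : GG θ i j a y = θ (a * (t * y k0 j)) * GG θ i j a y := by
    unfold GG
    refine (Fintype.sum_equiv (Equiv.mulRight (el i k0 hk t)) (fun u => ∑ v : unitri n F,
      θ (a * (mat (u * el i k0 hk t) * y * mat v) i j)) (fun u => ∑ v : unitri n F,
      θ (a * (mat u * y * mat v) i j)) (fun u => rfl)).symm.trans ?_
    rw [Finset.mul_sum]
    refine Finset.sum_congr rfl fun u _ => ?_
    rw [Finset.mul_sum]
    refine Finset.sum_congr rfl fun v _ => ?_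
    rw [← AddChar.map_add_eq_mul]
    congr 1
    rw [mat_mul, mat_el, Matrix.mul_add, Matrix.mul_one, Matrix.add_mul, Matrix.add_mul,
      Matrix.add_apply, mul_add, add_comm]
    congr 2
    have e1 : (y * mat v) k0 j = y k0 j := by
      rw [Matrix.mul_apply, Finset.sum_eq_single j]
      · rw [mat_diag, mul_one]
      · intro l _ hl
        rw [hc l hl, zero_mul]
      · simp
    rw [Matrix.mul_assoc, Matrix.mul_assoc, Matrix.mul_apply, Finset.sum_eq_single i]
    · rw [mat_diag, one_mul, Matrix.single_mul_apply_same, e1]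
    · intro k _ hk'
      rw [Matrix.single_mul_apply_of_ne _ _ _ _ _ hk', mul_zero]
    · simp
  have : (1 - θ (a * (t * y k0 j))) * GG θ i j a y = 0 := by
    rw [sub_mul, one_mul, ← key, sub_self]
  rcases mul_eq_zero.1 this with h | h
  · exact absurd (sub_eq_zero.1 h).symm ht
  · exact h

open Classical in
/-- the inner sum over the left factor -/
theorem inner_sum (θ : AddChar F ℂ) (hθ : θ ≠ 1) (i : Fin n) (a : F) (ha : a ≠ 0) (w : Fin n → F) :
    ∑ u : unitri n F, θ (a * ∑ k, mat u i k * w k) =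
      if ∀ k, i < k → w k = 0 then θ (a * w i) * Fintype.card (unitri n F) else 0 := by
  classical
  split_ifs with h
  · have : ∀ u : unitri n F, ∑ k, mat u i k * w k = w i := by
      intro u
      rw [Finset.sum_eq_single i]
      · rw [mat_diag, one_mul]
      · intro k _ hk
        rcases lt_or_gt_of_ne hk with h1 | h1
        · rw [mat_lower u h1, zero_mul]
        · rw [h k h1, mul_zero]
      · simp
    simp only [this]
    rw [Finset.sum_const, Finset.card_univ, nsmul_eq_mul, mul_comm]
  · push Not at h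
    obtain ⟨k0, hk, hw⟩ := h
    obtain ⟨t, ht⟩ := exists_t θ hθ a (w k0) ha hw
    set S := ∑ u : unitri n F, θ (a * ∑ k, mat u i k * w k) with hS
    have key : S = θ (a * (t * w k0)) * S := by
      rw [hS, Finset.mul_sum]
      refine (Fintype.sum_equiv (Equiv.mulRight (el i k0 hk t))
        (fun u => θ (a * ∑ k, mat (u * el i k0 hk t) i k * w k))
        (fun u => θ (a * ∑ k, mat u i k * w k)) (fun u => rfl)).symm.trans ?_
      refine Finset.sum_congr rfl fun u _ => ?_
      rw [← AddChar.map_add_eq_mul]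
      congr 1
      rw [← mul_add]
      congr 1
      have : ∀ k, mat (u * el i k0 hk t) i k * w k = mat u i k * w k + if k = k0 then t * w k0 else 0 := by
        intro k
        rw [mat_mul, mat_el, Matrix.mul_add, Matrix.mul_one, Matrix.add_apply, add_mul]
        congr 1
        by_cases h : k = k0
        · subst h
          rw [if_pos rfl, Matrix.mul_single_apply_same, mat_diag, one_mul]
        · rw [if_neg h, Matrix.mul_single_apply_of_ne _ _ _ _ _ h, zero_mul]
      simp only [this]
      rw [Finset.sum_add_distrib, add_comm]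
      simp
    have : (1 - θ (a * (t * w k0))) * S = 0 := by
      rw [sub_mul, one_mul, ← key, sub_self]
    rcases mul_eq_zero.1 this with h | h
    · exact absurd (sub_eq_zero.1 h).symm ht
    · exact h

/-- positivity up to the phase -/
theorem GG_pos (θ : AddChar F ℂ) (hθ : θ ≠ 1) (i j : Fin n) (a : F) (ha : a ≠ 0)
    (y : Matrix (Fin n) (Fin n) F) (hr : ∀ l, l < j → y i l = 0) (hc : ∀ k, i < k → y k j = 0) :
    ∃ P : ℝ, 0 < P ∧ GG θ i j a y = θ (a * y i j) * (P : ℂ) := by
  classical
  have h1 : ∀ v : unitri n F, ∑ u : unitri n F, θ (a * (mat u * y * mat v) i j) =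
      if ∀ k, i < k → (y * mat v) k j = 0 then θ (a * y i j) * Fintype.card (unitri n F) else 0 := by
    intro v
    have e1 : ∀ u : unitri n F, (mat u * y * mat v) i j = ∑ k, mat u i k * (y * mat v) k j := by
      intro u
      rw [Matrix.mul_assoc, Matrix.mul_apply]
    have e2 : (y * mat v) i j = y i j := by
      rw [Matrix.mul_apply, Finset.sum_eq_single j]
      · rw [mat_diag, mul_one]
      · intro l _ hl
        rcases lt_or_gt_of_ne hl with h | h
        · rw [hr l h, zero_mul]
        · rw [mat_lower v h, mul_zero]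
      · simp
    simp only [e1]
    rw [inner_sum θ hθ i a ha (fun k => (y * mat v) k j), e2]
  set N := (Finset.univ.filter fun v : unitri n F => ∀ k, i < k → (y * mat v) k j = 0).card with hN
  have hN0 : 0 < N := by
    refine Finset.card_pos.2 ⟨1, ?_⟩
    simp only [Finset.mem_filter, Finset.mem_univ, true_and]
    intro k hk
    rw [mat_one, Matrix.mul_one, hc k hk]
  have hU : 0 < Fintype.card (unitri n F) := Fintype.card_pos_iff.2 ⟨1⟩
  refine ⟨(N : ℝ) * Fintype.card (unitri n F), by positivity, ?_⟩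
  unfold GG
  rw [Finset.sum_comm]
  simp only [h1]
  rw [← Finset.sum_filter, Finset.sum_const, ← hN, nsmul_eq_mul]
  push_cast
  ring

/-- the sums separate clean matrices -/
theorem separate (θ : AddChar F ℂ) (hθ : θ ≠ 1) [Finite F] (b b' : Matrix (Fin n) (Fin n) F)
    (hb : ∀ i j, b i j ≠ 0 → Clean b i j) (hb' : ∀ i j, b' i j ≠ 0 → Clean b' i j)
    (i j : Fin n) (hG : ∀ a : F, a ≠ 0 → GG θ i j a b = GG θ i j a b') (hij : b i j ≠ 0) :
    b' i j = b i j := by
  have hF := Fintype.ofFinite F
  obtain ⟨c1, c2⟩ := hb i j hij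
  have hpos : ∀ a : F, a ≠ 0 → ∃ P : ℝ, 0 < P ∧ GG θ i j a b = θ (a * b i j) * (P : ℂ) := fun a ha =>
    GG_pos θ hθ i j a ha b (fun l hl => c1 l hl.ne) (fun k hk => c2 k hk.ne')
  have hne : ∀ a : F, a ≠ 0 → GG θ i j a b ≠ 0 := by
    intro a ha
    obtain ⟨P, hP, h⟩ := hpos a ha
    rw [h]
    refine mul_ne_zero ?_ (by exact_mod_cast hP.ne')
    intro h0
    have := AddChar.norm_apply θ (a * b i j)
    rw [h0, norm_zero] at this
    exact zero_ne_one this
  have d1 : ∀ l, l < j → b' i l = 0 := by
    intro l hl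
    by_contra h
    exact hne 1 one_ne_zero (by rw [hG 1 one_ne_zero]; exact GG_zero_row θ hθ i j l 1 one_ne_zero b' hl h (hb' i l h).2)
  have d2 : ∀ k, i < k → b' k j = 0 := by
    intro k hk
    by_contra h
    exact hne 1 one_ne_zero (by rw [hG 1 one_ne_zero]; exact GG_zero_col θ hθ i j k 1 one_ne_zero b' hk h (hb' k j h).1)
  have heq : ∀ a : F, a ≠ 0 → θ (a * b' i j) = θ (a * b i j) := by
    intro a ha
    obtain ⟨P, hP, h⟩ := hpos a ha
    obtain ⟨P', hP', h'⟩ := GG_pos θ hθ i j a ha b' d1 d2
    have h3 := hG a ha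
    rw [h, h'] at h3
    have h4 := congrArg norm h3
    rw [norm_mul, norm_mul, AddChar.norm_apply, AddChar.norm_apply, one_mul, one_mul,
      Complex.norm_real, Complex.norm_real, Real.norm_of_nonneg hP.le, Real.norm_of_nonneg hP'.le] at h4
    rw [h4] at h3
    exact (mul_right_cancel₀ (by exact_mod_cast hP'.ne') h3).symm
  by_contra hcon
  obtain ⟨t, ht⟩ := exists_t θ hθ 1 (b' i j - b i j) one_ne_zero (sub_ne_zero.2 hcon)
  apply ht
  by_cases h0 : t = 0
  · rw [h0]; simp
  · have h1 := heq t h0
    rw [one_mul, mul_sub, AddChar.map_sub_eq_div, h1, div_self]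
    intro h0'
    have := AddChar.norm_apply θ (t * b i j)
    rw [h0', norm_zero] at this
    exact zero_ne_one this

end sums

end Q46.SC
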